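import Pool.Agent.R752.GL.All

/-!
The critical FK interface for `q = 1` (bond percolation with `p = 1 / 2`) in the upper half-plane:
the law of the gaps of the set of boundary points it visits, at the level of single lattice points.

The interface started at the boundary point `0` (the boundary on its left is wired, the boundary on
its right is free) visits the boundary vertices which are joined to the boundary half-line
`(-∞, 0]`. The theorem gives, up to constants, the probability that `u < v` are two consecutive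
visited vertices, i.e. that `u` is the last boundary vertex visited before and `v` the first one
visited after the interface separates the vertices between them from infinity.
-/

set_option autoImplicit false

namespace Pool.Agent.Results.MP_b3e76a_pr.GapLaw

open MeasureTheory

/-- The square lattice: two points of `ℤ²` are adjacent when they differ by one in exactly one
coordinate. -/
def Z2 : SimpleGraph (ℤ × ℤ) where
  Adj u v := |u.1 - v.1| + |u.2 - v.2| = 1
  symm := ⟨fun u v h => by rw [abs_sub_comm v.1, abs_sub_comm v.2]; exact h⟩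
  loopless := ⟨fun u h => by simp at h⟩

/-- Critical bond percolation: every edge of the square lattice is open (`true`) with
probability `1/2`, independently of the other edges. -/
noncomputable def crit : Measure (Z2.edgeSet → Bool) :=
  Measure.infinitePi (fun _ => ProbabilityTheory.bernoulliMeasure true false
    ⟨1/2, by norm_num, by norm_num⟩)

/-- The graph of the open edges with both endpoints in the closed upper half-plane. -/
def openGraph (ω : Z2.edgeSet → Bool) : SimpleGraph (ℤ × ℤ) :=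
  SimpleGraph.fromEdgeSet {e | (∃ h : e ∈ Z2.edgeSet, ω ⟨e, h⟩ = true) ∧ ∀ v ∈ e, 0 ≤ v.2}

/-- The boundary vertex `(k, 0)` is joined to a boundary vertex `(x, 0)`, `x ≤ 0`, by an open path
of the upper half-plane. -/
def Hit (ω : Z2.edgeSet → Bool) (k : ℤ) : Prop :=
  ∃ x : ℤ, x ≤ 0 ∧ (openGraph ω).Reachable (x, 0) (k, 0)

/-- The probability that `u` and `v` are joined to the boundary half-line `(-∞, 0]` and that no
boundary vertex between them is. -/
noncomputable def gap (u v : ℤ) : ℝ :=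
  crit.real {ω | Hit ω u ∧ Hit ω v ∧ ∀ w : ℤ, u < w → w < v → ¬ Hit ω w}

/-! Auxiliary copies of the definitions over the lattice of the library. -/

/-- `openGraph`, over the lattice of the library. -/
def openG (ω : H974.sqLattice.edgeSet → Bool) : SimpleGraph (ℤ × ℤ) :=
  SimpleGraph.fromEdgeSet {e | (∃ h : e ∈ H974.sqLattice.edgeSet, ω ⟨e, h⟩ = true) ∧
    ∀ v ∈ e, 0 ≤ v.2}

/-- `Hit`, over the lattice of the library. -/
def HitG (ω : H974.sqLattice.edgeSet → Bool) (k : ℤ) : Prop :=
  ∃ x : ℤ, x ≤ 0 ∧ (openG ω).Reachable (x, 0) (k, 0)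

/-- `gap`, over the lattice of the library. -/
noncomputable def gapG (u v : ℤ) : ℝ :=
  (H974.bondLaw H731C.half).real
    {ω | HitG ω u ∧ HitG ω v ∧ ∀ w : ℤ, u < w → w < v → ¬ HitG ω w}

theorem gap_gapG (u v : ℤ) : gap u v = gapG u v := rfl

theorem adj_iff (ω : H974.sqLattice.edgeSet → Bool) (u v : ℤ × ℤ) :
    (openG ω).Adj u v ↔ (H974.openGraph ω).Adj u v ∧ 0 ≤ u.2 ∧ 0 ≤ v.2 := by
  unfold openG H974.openGraph
  rw [SimpleGraph.fromEdgeSet_adj, SimpleGraph.fromEdgeSet_adj]
  constructor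
  · rintro ⟨⟨h, hV⟩, hne⟩
    exact ⟨⟨h, hne⟩, hV u (Sym2.mem_mk_left u v), hV v (Sym2.mem_mk_right u v)⟩
  · rintro ⟨⟨h, hne⟩, hu, hv⟩
    refine ⟨⟨h, ?_⟩, hne⟩
    intro w hw
    rcases Sym2.mem_iff.mp hw with rfl | rfl
    · exact hu
    · exact hv

theorem reach_iff (ω : H974.sqLattice.edgeSet → Bool) (x y : ℤ) :
    (openG ω).Reachable (x, 0) (y, 0) ↔
      ∃ p : (H974.openGraph ω).Walk (x, 0) (y, 0), ∀ v ∈ p.support, 0 ≤ v.2 := by
  constructor
  · intro h
    rw [SimpleGraph.reachable_iff_reflTransGen] at h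
    have key : ∀ z, Relation.ReflTransGen (openG ω).Adj (x, 0) z →
        ∃ p : (H974.openGraph ω).Walk (x, 0) z, ∀ v ∈ p.support, 0 ≤ v.2 := by
      intro z hz
      induction hz with
      | refl => exact ⟨SimpleGraph.Walk.nil, by simp⟩
      | tail _ hs ih =>
        rename_i b c _
        obtain ⟨p, hp⟩ := ih
        obtain ⟨h1, h2, h3⟩ := (adj_iff ω b c).mp hs
        refine ⟨p.concat h1, ?_⟩
        intro w hw
        rw [SimpleGraph.Walk.support_concat] at hw
        have hw' : w ∈ p.support ∨ w = c := by simpa using hw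
        rcases hw' with h | h
        · exact hp w h
        · rw [h]; exact h3
    exact key _ h
  · rintro ⟨p, hp⟩
    have key : ∀ {u v : ℤ × ℤ} (p : (H974.openGraph ω).Walk u v),
        (∀ w ∈ p.support, 0 ≤ w.2) → (openG ω).Reachable u v := by
      intro u v p
      induction p with
      | nil => intro _; exact SimpleGraph.Reachable.refl _
      | cons h p ih =>
        rename_i u w z
        intro hs
        have h1 := ih (fun t ht => hs t (by simp [ht]))
        have h2 : (openG ω).Adj u w := (adj_iff ω u w).mpr ⟨h, hs u (by simp), hs w (by simp)⟩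
        exact h2.reachable.trans h1
    exact key p hp

theorem joined_iff (k l : ℤ) (ω : H974.sqLattice.edgeSet → Bool) :
    ω ∈ H731C.Joined (Set.Iic 0) (Set.Icc k l) ↔ ∃ j : ℤ, k ≤ j ∧ j ≤ l ∧ HitG ω j := by
  constructor
  · rintro ⟨x, hx, y, hy, p, hp⟩
    exact ⟨y, hy.1, hy.2, x, hx, (reach_iff ω x y).mpr ⟨p, hp⟩⟩
  · rintro ⟨j, h1, h2, x, hx, h3⟩
    obtain ⟨p, hp⟩ := (reach_iff ω x j).mp h3
    exact ⟨x, hx, j, ⟨h1, h2⟩, p, hp⟩

theorem gapG_eq {u v : ℤ} (huv : u < v) : gapG u v = R752GL.gp 0 u v := by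
  rw [← R752GL.gap_real huv]
  unfold gapG
  congr 1
  ext ω
  rw [Set.mem_sdiff, Set.mem_inter_iff, joined_iff, joined_iff, joined_iff]
  constructor
  · rintro ⟨h1, h2, h3⟩
    refine ⟨⟨⟨u, le_rfl, le_rfl, h1⟩, ⟨v, le_rfl, le_rfl, h2⟩⟩, ?_⟩
    rintro ⟨j, h4, h5, h6⟩
    exact h3 j (by omega) (by omega) h6
  · rintro ⟨⟨⟨j, h1, h2, h3⟩, ⟨j', h4, h5, h6⟩⟩, h7⟩
    obtain rfl : j = u := by omega
    obtain rfl : j' = v := by omega
    exact ⟨h3, h6, fun w hw1 hw2 hw3 => h7 ⟨w, by omega, by omega, hw3⟩⟩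

/-- **The gap law, up to constants.** There are `c, C > 0` such that for all `1 ≤ u < v` the
probability that `u` and `v` are consecutive among the boundary vertices joined to `(-∞, 0]` is
between `c` and `C` times `v^(1/3) / (u^(2/3) (v - u)^(5/3))`. -/
theorem result : ∃ c C : ℝ, 0 < c ∧ 0 < C ∧ ∀ u v : ℤ, 1 ≤ u → u < v →
    c * ((v : ℝ) ^ ((1 : ℝ) / 3) /
      ((u : ℝ) ^ ((2 : ℝ) / 3) * ((v : ℝ) - u) ^ ((5 : ℝ) / 3))) ≤ gap u v ∧
    gap u v ≤ C * ((v : ℝ) ^ ((1 : ℝ) / 3) /
      ((u : ℝ) ^ ((2 : ℝ) / 3) * ((v : ℝ) - u) ^ ((5 : ℝ) / 3))) := by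
  obtain ⟨c, hc, h1⟩ := R752GL.all_an2
  obtain ⟨C, hC, h2⟩ := R752GL.all_ub
  refine ⟨c, C, hc, hC, ?_⟩
  intro u v hu huv
  have e : R752GL.V (u - 0) (v - u) = (v : ℝ) ^ ((1 : ℝ) / 3) /
      ((u : ℝ) ^ ((2 : ℝ) / 3) * ((v : ℝ) - u) ^ ((5 : ℝ) / 3)) := by
    unfold R752GL.V
    push_cast
    rw [sub_zero, add_sub_cancel]
  rw [gap_gapG, gapG_eq huv, ← e]
  exact ⟨h1 0 u v (by omega) huv, h2 0 u v (by omega) huv⟩

end Pool.Agent.Results.MP_b3e76a_pr.GapLaw
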