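import Pool.Agent.H726.GB.FK2

/-!
The FK (random cluster) model on a finite graph with vertices in `ℤ²` and a wired set `W` of
vertices.  Let `A` and `B` be two edge configurations in a finite window which connect the vertices
outside a set `I` of inner vertices in the same way.  Along the wired cluster (and along its
boundary, which is the interface), the numbers of places with the pattern `A` and with the pattern
`B` are in the ratio of the weights of `A` and `B`, up to self-normalised Gaussian fluctuations,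
uniformly over all domains, boundary conditions and sets of places.
-/

set_option autoImplicit false

namespace Pool.Agent.Results.MP_b3e76a_pr.LocalBalance

open scoped Classical

/-- `u` and `v` are in the same cluster of the edge configuration `ω`, the set `W` being wired -/
def Conn (ω : Finset (Sym2 (ℤ × ℤ))) (W : Set (ℤ × ℤ)) : ℤ × ℤ → ℤ × ℤ → Prop :=
  Relation.ReflTransGen (fun u v => s(u, v) ∈ ω ∨ (u ∈ W ∧ v ∈ W))

/-- the number of clusters `c(ω)` in the vertex set `Ω`; `W` counts as connected -/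
noncomputable def clusters (Ω : Finset (ℤ × ℤ)) (W : Set (ℤ × ℤ)) (ω : Finset (Sym2 (ℤ × ℤ))) :
    ℕ := Set.ncard {C : Set (ℤ × ℤ) | ∃ v ∈ Ω, C = {u | Conn ω W v u}}

/-- the weight `(p / (1 - p))^|ω| q^c(ω)` -/
noncomputable def weight (p q : ℝ) (Ω : Finset (ℤ × ℤ)) (W : Set (ℤ × ℤ))
    (ω : Finset (Sym2 (ℤ × ℤ))) : ℝ := (p / (1 - p)) ^ ω.card * q ^ clusters Ω W ω

/-- the probability of `Q` in the FK model on the graph `(Ω, E)` with wired set `W` -/
noncomputable def prob (p q : ℝ) (Ω : Finset (ℤ × ℤ)) (E : Finset (Sym2 (ℤ × ℤ)))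
    (W : Set (ℤ × ℤ)) (Q : Finset (Sym2 (ℤ × ℤ)) → Prop) : ℝ :=
  (∑ ω ∈ E.powerset.filter Q, weight p q Ω W ω) / ∑ ω ∈ E.powerset, weight p q Ω W ω

/-- translation of a set of edges -/
def shift (z : ℤ × ℤ) (F : Finset (Sym2 (ℤ × ℤ))) : Finset (Sym2 (ℤ × ℤ)) :=
  F.image (Sym2.map (z + ·))

/-- a local pattern to be compared with another one: the window `win` (a finite set of edges), the
inner vertices `inn`, and two sets `on`, `off` of other vertices, which have to be on the wired
cluster, resp. not on the wired cluster -/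
structure Window where
  win : Finset (Sym2 (ℤ × ℤ))
  inn : Finset (ℤ × ℤ)
  on : Finset (ℤ × ℤ)
  off : Finset (ℤ × ℤ)
  on_out : ∀ v ∈ on, v ∉ inn
  off_out : ∀ v ∈ off, v ∉ inn

/-- the local weight `(p / (1 - p))^|A| q^k(A)` of the pattern `A`, where `k(A)` is the number of
clusters of `A` contained in the set of inner vertices -/
noncomputable def lweight (p q : ℝ) (K : Window) (A : Finset (Sym2 (ℤ × ℤ))) : ℝ :=
  (p / (1 - p)) ^ A.card *
    q ^ Set.ncard {C : Set (ℤ × ℤ) | C ⊆ (K.inn : Set (ℤ × ℤ)) ∧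
      ∃ v ∈ (K.inn : Set (ℤ × ℤ)), C = {u | Conn A ∅ v u}}

/-- `N ω`: the number of places `z ∈ D` such that the window `z + win` is in the graph, its inner
vertices are vertices of the graph outside `W` whose edges are all in the window, the configuration
in the window is `z + A`, all vertices of `z + on` and no vertex of `z + off` are on the wired
cluster -/
noncomputable def N (K : Window) (Ω : Finset (ℤ × ℤ)) (E : Finset (Sym2 (ℤ × ℤ)))
    (W : Set (ℤ × ℤ)) (D : Finset (ℤ × ℤ)) (A ω : Finset (Sym2 (ℤ × ℤ))) : ℕ :=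
  (D.filter (fun z =>
    (shift z K.win ⊆ E ∧ (∀ v ∈ K.inn, z + v ∈ Ω ∧ z + v ∉ W) ∧
      ∀ e ∈ E, ∀ v ∈ K.inn, z + v ∈ e → e ∈ shift z K.win) ∧
    ω ∩ shift z K.win = shift z A ∧
    (∀ v ∈ K.on, ∃ u ∈ W, Conn ω W u (z + v)) ∧
    ∀ v ∈ K.off, ¬ ∃ u ∈ W, Conn ω W u (z + v))).card

/-- **Theorem.** Let `0 < p < 1`, `q > 0`, and let `A`, `B` be two edge configurations in the window
of `K` which connect the vertices that are not inner vertices in the same way; let `w_A`, `w_B` be
their local weights. There is `c > 0` such that for every finite graph `(Ω, E)` with `Ω ⊂ ℤ²`, every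
wired set `W ⊂ Ω`, every finite set `D` of places and every `t ≥ 0`, in the FK model
`P (|w_B N_A - w_A N_B| > t √(N_A + N_B)) ≤ 2 e |D| e^(-c t²)`. -/
theorem result (p q : ℝ) (hp0 : 0 < p) (hp1 : p < 1) (hq : 0 < q) (K : Window)
    (A B : Finset (Sym2 (ℤ × ℤ))) (hA : A ⊆ K.win) (hB : B ⊆ K.win)
    (hAB : ∀ u v, u ∉ K.inn → v ∉ K.inn → (Conn A ∅ u v ↔ Conn B ∅ u v)) :
    ∃ c : ℝ, 0 < c ∧ ∀ (Ω : Finset (ℤ × ℤ)) (E : Finset (Sym2 (ℤ × ℤ))) (W : Set (ℤ × ℤ)),
      (∀ e ∈ E, ∀ v ∈ e, v ∈ Ω) → (∀ v ∈ W, v ∈ Ω) →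
      ∀ (D : Finset (ℤ × ℤ)) (t : ℝ), 0 ≤ t →
      prob p q Ω E W (fun ω => t * Real.sqrt (N K Ω E W D A ω + N K Ω E W D B ω) <
        |lweight p q K B * N K Ω E W D A ω - lweight p q K A * N K Ω E W D B ω|) ≤
      2 * Real.exp 1 * D.card * Real.exp (-(c * t ^ 2)) := by
  have hx : 0 < p / (1 - p) := div_pos hp0 (by linarith)
  have h : H726.FK.OK K.win A B K.inn K.on K.off := ⟨hA, hB, hAB, K.on_out, K.off_out⟩
  obtain ⟨c, hc, h1⟩ := H726.FK.fk_balance hx hq h
  refine ⟨c, hc, fun Ω E W hE hW D t ht => ?_⟩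
  have h2 := h1 Ω E W hE hW D t ht
  have hZ : 0 < ∑ ω ∈ E.powerset, weight p q Ω W ω := by
    apply Finset.sum_pos
    · intro ω _
      unfold weight
      positivity
    · exact ⟨∅, Finset.empty_mem_powerset _⟩
  have eN : ∀ F ω, N K Ω E W D F ω = (H726.FK.pl D Ω E W K.win K.inn K.on K.off F ω).card := by
    intro F ω
    unfold N H726.FK.pl
    congr 1
    apply Finset.filter_congr
    intro z _
    rfl
  unfold prob
  rw [div_le_iff₀ hZ]
  refine le_trans (le_of_eq ?_) h2
  apply Finset.sum_congr _ fun _ _ => rfl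
  apply Finset.ext
  intro ω
  rw [Finset.mem_filter, Finset.mem_filter, eN, eN]
  rfl

end Pool.Agent.Results.MP_b3e76a_pr.LocalBalance
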