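import Pool.Agent.H985R6.LC.All

/-!
The critical FK interface for `q = 1` (bond percolation with `p = 1 / 2`) in the upper half-plane:
the law of the boundary point at which it disconnects the origin from infinity, at the level of
single lattice points.

The interface started at the boundary point `-N` (the boundary on its left is wired, the boundary on
its right is free) follows the clusters which are joined to the boundary half-line `(-∞, -N]`. It
separates the origin from infinity when it reaches the first vertex `k ≥ 0` of the boundary which is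
joined to `(-∞, -N]`. For chordal SLE₆ the law of this point has the density
`const * N^(1/3) * k^(-2/3) * (N + k)^(-2/3)`, and its distribution function is Cardy's function of
`k / (N + k)`.
-/

set_option autoImplicit false

namespace Pool.Agent.Results.MP_b3e76a_pr.LocalCardy

open MeasureTheory

/-- The square lattice: two points of `ℤ²` are adjacent when they differ by one in exactly one
coordinate. -/
def Z2 : SimpleGraph (ℤ × ℤ) where
  Adj u v := |u.1 - v.1| + |u.2 - v.2| = 1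
  symm := ⟨fun u v h => by rw [abs_sub_comm v.1, abs_sub_comm v.2]; exact h⟩
  loopless := ⟨fun u h => by simp at h⟩

/-- Critical bond percolation: every edge of the square lattice is open (`true`) with
probability `1/2`, independently of the other edges. -/
noncomputable def crit : Measure (Z2.edgeSet → Bool) :=
  Measure.infinitePi (fun _ => ProbabilityTheory.bernoulliMeasure true false
    ⟨1/2, by norm_num, by norm_num⟩)

/-- The graph of the open edges with both endpoints in the closed upper half-plane. -/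
def openGraph (ω : Z2.edgeSet → Bool) : SimpleGraph (ℤ × ℤ) :=
  SimpleGraph.fromEdgeSet {e | (∃ h : e ∈ Z2.edgeSet, ω ⟨e, h⟩ = true) ∧ ∀ v ∈ e, 0 ≤ v.2}

/-- The boundary vertex `(k, 0)` is joined to a boundary vertex `(x, 0)`, `x ≤ -N`, by an open path
of the upper half-plane. -/
def Hit (N : ℤ) (ω : Z2.edgeSet → Bool) (k : ℤ) : Prop :=
  ∃ x : ℤ, x ≤ -N ∧ (openGraph ω).Reachable (x, 0) (k, 0)

/-- The probability that the first vertex of the boundary half-line `[0, ∞)` which is joined to the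
boundary half-line `(-∞, -N]` exists and belongs to `[k, l]`. -/
noncomputable def first (N k l : ℤ) : ℝ :=
  crit.real {ω | ∃ j : ℤ, k ≤ j ∧ j ≤ l ∧ Hit N ω j ∧ ∀ i : ℤ, 0 ≤ i → i < j → ¬ Hit N ω i}

/-- Cardy's function. -/
noncomputable def cardy (x : ℝ) : ℝ :=
  (∫ u in (0 : ℝ)..x, u ^ (-(2/3) : ℝ) * (1 - u) ^ (-(2/3) : ℝ)) /
    ∫ u in (0 : ℝ)..1, u ^ (-(2/3) : ℝ) * (1 - u) ^ (-(2/3) : ℝ)

/-! Auxiliary copies of the definitions over the lattice of the library. -/

/-- `openGraph`, over the lattice of the library. -/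
def openG (ω : H974.sqLattice.edgeSet → Bool) : SimpleGraph (ℤ × ℤ) :=
  SimpleGraph.fromEdgeSet {e | (∃ h : e ∈ H974.sqLattice.edgeSet, ω ⟨e, h⟩ = true) ∧
    ∀ v ∈ e, 0 ≤ v.2}

/-- `Hit`, over the lattice of the library. -/
def HitG (N : ℤ) (ω : H974.sqLattice.edgeSet → Bool) (k : ℤ) : Prop :=
  ∃ x : ℤ, x ≤ -N ∧ (openG ω).Reachable (x, 0) (k, 0)

/-- `first`, over the lattice of the library. -/
noncomputable def firstG (N k l : ℤ) : ℝ :=
  (H974.bondLaw H731C.half).real
    {ω | ∃ j : ℤ, k ≤ j ∧ j ≤ l ∧ HitG N ω j ∧ ∀ i : ℤ, 0 ≤ i → i < j → ¬ HitG N ω i}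

theorem first_firstG (N k l : ℤ) : first N k l = firstG N k l := rfl

theorem adj_iff (ω : H974.sqLattice.edgeSet → Bool) (u v : ℤ × ℤ) :
    (openG ω).Adj u v ↔ (H974.openGraph ω).Adj u v ∧ 0 ≤ u.2 ∧ 0 ≤ v.2 := by
  unfold openG H974.openGraph
  rw [SimpleGraph.fromEdgeSet_adj, SimpleGraph.fromEdgeSet_adj]
  constructor
  · rintro ⟨⟨h, hV⟩, hne⟩
    exact ⟨⟨h, hne⟩, hV u (Sym2.mem_mk_left u v), hV v (Sym2.mem_mk_right u v)⟩
  · rintro ⟨⟨h, hne⟩, hu, hv⟩
    refine ⟨⟨h, ?_⟩, hne⟩
    intro w hw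
    rcases Sym2.mem_iff.mp hw with rfl | rfl
    · exact hu
    · exact hv

theorem reach_iff (ω : H974.sqLattice.edgeSet → Bool) (x y : ℤ) :
    (openG ω).Reachable (x, 0) (y, 0) ↔
      ∃ p : (H974.openGraph ω).Walk (x, 0) (y, 0), ∀ v ∈ p.support, 0 ≤ v.2 := by
  constructor
  · intro h
    rw [SimpleGraph.reachable_iff_reflTransGen] at h
    have key : ∀ z, Relation.ReflTransGen (openG ω).Adj (x, 0) z →
        ∃ p : (H974.openGraph ω).Walk (x, 0) z, ∀ v ∈ p.support, 0 ≤ v.2 := by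
      intro z hz
      induction hz with
      | refl => exact ⟨SimpleGraph.Walk.nil, by simp⟩
      | tail _ hs ih =>
        rename_i b c _
        obtain ⟨p, hp⟩ := ih
        obtain ⟨h1, h2, h3⟩ := (adj_iff ω b c).mp hs
        refine ⟨p.concat h1, ?_⟩
        intro w hw
        rw [SimpleGraph.Walk.support_concat] at hw
        have hw' : w ∈ p.support ∨ w = c := by simpa using hw
        rcases hw' with h | h
        · exact hp w h
        · rw [h]; exact h3
    exact key _ h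
  · rintro ⟨p, hp⟩
    have key : ∀ {u v : ℤ × ℤ} (p : (H974.openGraph ω).Walk u v),
        (∀ w ∈ p.support, 0 ≤ w.2) → (openG ω).Reachable u v := by
      intro u v p
      induction p with
      | nil => intro _; exact SimpleGraph.Reachable.refl _
      | cons h p ih =>
        rename_i u w z
        intro hs
        have h1 := ih (fun t ht => hs t (by simp [ht]))
        have h2 : (openG ω).Adj u w := (adj_iff ω u w).mpr ⟨h, hs u (by simp), hs w (by simp)⟩
        exact h2.reachable.trans h1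
    exact key p hp

theorem joined_iff (N k l : ℤ) (ω : H974.sqLattice.edgeSet → Bool) :
    ω ∈ H731C.Joined (Set.Iic (-N)) (Set.Icc k l) ↔ ∃ j : ℤ, k ≤ j ∧ j ≤ l ∧ HitG N ω j := by
  constructor
  · rintro ⟨x, hx, y, hy, p, hp⟩
    exact ⟨y, hy.1, hy.2, x, hx, (reach_iff ω x y).mpr ⟨p, hp⟩⟩
  · rintro ⟨j, h1, h2, x, hx, h3⟩
    obtain ⟨p, hp⟩ := (reach_iff ω x j).mp h3
    exact ⟨x, hx, j, ⟨h1, h2⟩, p, hp⟩

theorem first_eq {N k l : ℤ} (hk : 0 ≤ k) (hkl : k ≤ l) :
    firstG N k l = H731C.crossProb (Set.Iic (-N)) (Set.Icc 0 l) -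
      H731C.crossProb (Set.Iic (-N)) (Set.Icc 0 (k - 1)) := by
  have h1 : {ω | ∃ j : ℤ, k ≤ j ∧ j ≤ l ∧ HitG N ω j ∧ ∀ i : ℤ, 0 ≤ i → i < j → ¬ HitG N ω i} =
      H731C.Joined (Set.Iic (-N)) (Set.Icc 0 l) \
        H731C.Joined (Set.Iic (-N)) (Set.Icc 0 (k - 1)) := by
    ext ω
    rw [Set.mem_sdiff, joined_iff, joined_iff]
    constructor
    · rintro ⟨j, h1, h2, h3, h4⟩
      refine ⟨⟨j, by omega, h2, h3⟩, ?_⟩
      rintro ⟨i, h5, h6, h7⟩
      exact h4 i h5 (by omega) h7
    · rintro ⟨⟨j, h1, h2, h3⟩, h4⟩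
      classical
      have hex : ∃ n : ℕ, HitG N ω (n : ℤ) := ⟨j.toNat, by rwa [Int.toNat_of_nonneg h1]⟩
      refine ⟨(Nat.find hex : ℤ), ?_, ?_, Nat.find_spec hex, ?_⟩
      · by_contra hlt
        exact h4 ⟨_, by omega, by omega, Nat.find_spec hex⟩
      · have : Nat.find hex ≤ j.toNat := Nat.find_le (by rwa [Int.toNat_of_nonneg h1])
        omega
      · intro i hi hlt hh
        have h5 : Nat.find hex ≤ i.toNat := Nat.find_le (by rwa [Int.toNat_of_nonneg hi])
        omega
  have h2 : H731C.Joined (Set.Iic (-N)) (Set.Icc 0 (k - 1)) ⊆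
      H731C.Joined (Set.Iic (-N)) (Set.Icc 0 l) := by
    intro ω hω
    rw [joined_iff] at hω ⊢
    obtain ⟨j, h1, h2, h3⟩ := hω
    exact ⟨j, h1, by omega, h3⟩
  unfold firstG
  rw [h1, measureReal_sdiff h2 (H985LC.meas_Iic _ _ _)]
  rfl

/-- **Cardy's formula at the lattice scale, up to constants.** There are `c, C > 0` such that, for
all `N ≥ 1` and all `k ≥ 0`, the first vertex of `[0, ∞)` which is joined to `(-∞, -N]` is `k` with a
probability between `c` and `C` times `N^(1/3) / ((k + 1)^(2/3) (N + k)^(2/3))`, and, for all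
`0 ≤ k ≤ l`, it belongs to `[k, l]` with a probability between `c` and `C` times the probability
that SLE₆ from `-N` to `∞` separates `0` from `∞` at a point of the interval `(k, l + 1)`. -/
theorem result : ∃ c C : ℝ, 0 < c ∧ 0 < C ∧
    (∀ N k : ℤ, 1 ≤ N → 0 ≤ k →
      c * ((N : ℝ) ^ ((1 : ℝ) / 3) /
        (((k : ℝ) + 1) ^ ((2 : ℝ) / 3) * ((N : ℝ) + k) ^ ((2 : ℝ) / 3))) ≤ first N k k ∧
      first N k k ≤ C * ((N : ℝ) ^ ((1 : ℝ) / 3) /
        (((k : ℝ) + 1) ^ ((2 : ℝ) / 3) * ((N : ℝ) + k) ^ ((2 : ℝ) / 3)))) ∧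
    (∀ N k l : ℤ, 1 ≤ N → 0 ≤ k → k ≤ l →
      c * (cardy (((l : ℝ) + 1) / ((N : ℝ) + ((l : ℝ) + 1))) -
        cardy ((k : ℝ) / ((N : ℝ) + k))) ≤ first N k l ∧
      first N k l ≤ C * (cardy (((l : ℝ) + 1) / ((N : ℝ) + ((l : ℝ) + 1))) -
        cardy ((k : ℝ) / ((N : ℝ) + k)))) := by
  obtain ⟨c, C, hc, hC, h1, h2, _⟩ :=
    H985LC.final H985LC.all_wb H985LC.t_fd H985LC.t_lm H985LC.t_cy
  refine ⟨c, C, hc, hC, ?_, ?_⟩
  · intro N k hN hk
    have h3 := h1 N k hN hk
    rw [H985LC.first_real hk, ← first_eq hk le_rfl, ← first_firstG] at h3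
    exact h3
  · intro N k l hN hk hkl
    have h3 := h2 N k l hN hk hkl
    rw [← first_eq hk hkl, ← first_firstG] at h3
    have e : ((l + 1 : ℤ) : ℝ) = (l : ℝ) + 1 := by push_cast; ring
    rw [e] at h3
    exact h3

end Pool.Agent.Results.MP_b3e76a_pr.LocalCardy
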