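import Pool.Agent.TH966.CC.Main

/-!
Critical bond percolation on the square lattice (`p = 1/2`) in rectangles `[0, w] × [0, h]`: for
arbitrary sets `S`, `T` of vertices of the left and of the right side, which stay at a distance of
order `h` from the corners, the probability that `S` is joined to `T` by an open path of the
rectangle is, up to multiplicative constants, the product of the probability of a left-right
crossing and of the capacities of `S` and `T` for the kernel `(h / |x - y|) ^ (1 / 3)`. The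
constants do not depend on `S`, `T` nor on the aspect ratio `w / h`, which is bounded from below but
may be arbitrarily large.
-/

set_option autoImplicit false

namespace Pool.Agent.Results.MP_b3e76a_pr.RectangleCapacities

open MeasureTheory Finset

/-- The square lattice: two points of `ℤ²` are adjacent when they differ by one in exactly one
coordinate. -/
def Z2 : SimpleGraph (ℤ × ℤ) where
  Adj u v := |u.1 - v.1| + |u.2 - v.2| = 1
  symm := ⟨fun u v h => by rw [abs_sub_comm v.1, abs_sub_comm v.2]; exact h⟩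
  loopless := ⟨fun u h => by simp at h⟩

/-- Critical bond percolation: every edge of the square lattice is open (`true`) with
probability `1/2`, independently of the other edges. -/
noncomputable def crit : Measure (Z2.edgeSet → Bool) :=
  Measure.infinitePi (fun _ => ProbabilityTheory.bernoulliMeasure true false
    ⟨1/2, by norm_num, by norm_num⟩)

/-- The graph of the open edges with both endpoints in the rectangle `[0, w] × [0, h]`. -/
def openGraph (w h : ℤ) (ω : Z2.edgeSet → Bool) : SimpleGraph (ℤ × ℤ) :=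
  SimpleGraph.fromEdgeSet {e | (∃ h' : e ∈ Z2.edgeSet, ω ⟨e, h'⟩ = true) ∧
    ∀ v ∈ e, (0 ≤ v.1 ∧ v.1 ≤ w) ∧ 0 ≤ v.2 ∧ v.2 ≤ h}

/-- The probability that some vertex `(0, s)`, `s ∈ S`, is joined to some vertex `(w, t)`, `t ∈ T`,
by an open path of the rectangle `[0, w] × [0, h]`. -/
noncomputable def cross (w h : ℤ) (S T : Finset ℤ) : ℝ :=
  crit.real {ω | ∃ s ∈ S, ∃ t ∈ T, (openGraph w h ω).Reachable (0, s) (w, t)}

/-- The energy of the weight `v` on the set `S`, for the kernel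
`((h + 1) / (|x - y| + 1)) ^ (1 / 3)`. -/
noncomputable def energy (h : ℤ) (S : Finset ℤ) (v : ℤ → ℝ) : ℝ :=
  ∑ x ∈ S, ∑ y ∈ S, v x * v y * (((h : ℝ) + 1) / (|(x : ℝ) - y| + 1)) ^ ((1 : ℝ) / 3)

/-- The capacity of `S`: the supremum of `1 / energy` over all probability weights on `S` (`0` if `S`
is empty). -/
noncomputable def capacity (h : ℤ) (S : Finset ℤ) : ℝ :=
  sSup {r | ∃ v : ℤ → ℝ, (∀ x ∈ S, 0 ≤ v x) ∧ ∑ x ∈ S, v x = 1 ∧ r = 1 / energy h S v}

/-- The set `S` of heights stays at distance at least `h / κ` from `0` and from `h`. -/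
def Middle (κ : ℕ) (h : ℤ) (S : Finset ℤ) : Prop := ∀ x ∈ S, h ≤ κ * x ∧ h ≤ κ * (h - x)

theorem kern_eq {h x y : ℤ} (hh : 0 ≤ h) : Pool.Agent.TH966.CC.kern h x y =
    (((h : ℝ) + 1) / (|(x : ℝ) - y| + 1)) ^ ((1 : ℝ) / 3) := by
  unfold Pool.Agent.TH966.CC.kern Pool.Agent.TH966.CC.q H934E.th
  have h1 : (0 : ℝ) ≤ (h : ℝ) := by exact_mod_cast hh
  have e1 : (((|x - y| + 1 : ℤ)) : ℝ) = |(x : ℝ) - y| + 1 := by push_cast; ring
  have e2 : (((h + 1 : ℤ)) : ℝ) = (h : ℝ) + 1 := by push_cast; ring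
  rw [e1, e2, Real.div_rpow (by positivity) (by positivity)]
  have p1 : 0 < (|(x : ℝ) - y| + 1) ^ ((1 : ℝ) / 3) := by positivity
  have p2 : 0 < ((h : ℝ) + 1) ^ ((1 : ℝ) / 3) := by positivity
  field_simp

theorem capacity_eq {h : ℤ} (hh : 0 ≤ h) (S : Finset ℤ) :
    capacity h S = Pool.Agent.TH966.CC.Cap h S := by
  have e : ∀ v : ℤ → ℝ, energy h S v = Pool.Agent.TH966.CC.en h S v := by
    intro v
    unfold energy Pool.Agent.TH966.CC.en
    refine Finset.sum_congr rfl fun x _ => Finset.sum_congr rfl fun y _ => ?_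
    rw [kern_eq hh]
  unfold capacity Pool.Agent.TH966.CC.Cap Pool.Agent.TH966.CC.CS
  congr 1
  ext r
  constructor
  · rintro ⟨v, h1, h2, h3⟩
    exact ⟨v, h1, h2, by rw [h3, e]⟩
  · rintro ⟨v, h1, h2, h3⟩
    exact ⟨v, h1, h2, by rw [h3, e]⟩

open H974 in
theorem openGraph_adj (w h : ℤ) (ω : Z2.edgeSet → Bool) (u v : ℤ × ℤ) :
    (openGraph w h ω).Adj u v ↔ H974.Adj (↑(H974.FF (RE 0 w 0 h) ω) : Set H974.Edg) u v := by
  have hI : ∀ z : ℤ × ℤ, inR 0 w 0 h z ↔ (0 ≤ z.1 ∧ z.1 ≤ w) ∧ 0 ≤ z.2 ∧ z.2 ≤ h :=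
    fun z => Iff.rfl
  have hFF : ∀ e : H974.Edg, e ∈ (↑(H974.FF (RE 0 w 0 h) ω) : Set H974.Edg) ↔
      e ∈ (H974.opn ω : Set H974.Edg) ∧ e ∈ (↑(RE 0 w 0 h) : Set H974.Edg) :=
    fun e => Set.ext_iff.mp (H974.FF_coe (RE 0 w 0 h) ω) e
  unfold openGraph
  rw [SimpleGraph.fromEdgeSet_adj]
  constructor
  · rintro ⟨⟨⟨h', hω⟩, hV⟩, hne⟩
    have hadj : (H974.openGraph ω).Adj u v := by
      unfold H974.openGraph
      rw [SimpleGraph.fromEdgeSet_adj]
      exact ⟨⟨h', hω⟩, hne⟩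
    obtain ⟨e, he, hcase⟩ := (H974.openGraph_adj ω u v).mp hadj
    have hu := hV u (Sym2.mem_mk_left u v)
    have hv := hV v (Sym2.mem_mk_right u v)
    refine ⟨e, (hFF e).mpr ⟨he, ?_⟩, hcase⟩
    rcases hcase with ⟨h1, h2⟩ | ⟨h1, h2⟩
    · exact Finset.mem_coe.mpr
        (H731C.RE_of_ends (by rw [h1]; exact (hI u).mpr hu) (by rw [h2]; exact (hI v).mpr hv))
    · exact Finset.mem_coe.mpr
        (H731C.RE_of_ends (by rw [h1]; exact (hI v).mpr hv) (by rw [h2]; exact (hI u).mpr hu))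
  · rintro ⟨e, he0, hcase⟩
    have he := (hFF e).mp he0
    have hadj : (H974.openGraph ω).Adj u v := (H974.openGraph_adj ω u v).mpr ⟨e, he.1, hcase⟩
    unfold H974.openGraph at hadj
    rw [SimpleGraph.fromEdgeSet_adj] at hadj
    refine ⟨⟨hadj.1, ?_⟩, hadj.2⟩
    have hends := H731C.RE_ends (Finset.mem_coe.mp he.2)
    intro z hz
    rcases Sym2.mem_iff.mp hz with rfl | rfl
    · rcases hcase with ⟨h1, h2⟩ | ⟨h1, h2⟩
      · rw [← h1]; exact (hI _).mp hends.1
      · rw [← h2]; exact (hI _).mp hends.2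
    · rcases hcase with ⟨h1, h2⟩ | ⟨h1, h2⟩
      · rw [← h2]; exact (hI _).mp hends.2
      · rw [← h1]; exact (hI _).mp hends.1

theorem cross_eq (w h : ℤ) (S T : Finset ℤ) : cross w h S T =
    H974.Pr Pool.Agent.H160R2.CV.P (H974.RE 0 w 0 h) (Pool.Agent.TH966.CC.Cr w h S T) := by
  have h1 : H974.Pr Pool.Agent.H160R2.CV.P (H974.RE 0 w 0 h) (Pool.Agent.TH966.CC.Cr w h S T) =
      (H974.bondLaw H974.hlf).real
        {ω | Pool.Agent.TH966.CC.Cr w h S T (H974.FF (H974.RE 0 w 0 h) ω)} :=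
    (H974.law_event H974.hlf (H974.RE 0 w 0 h) (Pool.Agent.TH966.CC.Cr w h S T)).symm
  have h2 : cross w h S T = (H974.bondLaw H974.hlf).real
      {ω | ∃ s ∈ S, ∃ t ∈ T, (openGraph w h ω).Reachable (0, s) (w, t)} := rfl
  rw [h1, h2]
  congr 1
  ext ω
  have key : ∀ u v : ℤ × ℤ, (openGraph w h ω).Reachable u v ↔
      H974.Reach (↑(H974.FF (H974.RE 0 w 0 h) ω) ∩ ↑(H974.RE 0 w 0 h) : Set H974.Edg) u v := by
    intro u v
    rw [SimpleGraph.reachable_iff_reflTransGen]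
    have e : (openGraph w h ω).Adj =
        H974.Adj (↑(H974.FF (H974.RE 0 w 0 h) ω) ∩ ↑(H974.RE 0 w 0 h) : Set H974.Edg) := by
      funext u v
      have e1 : (↑(H974.FF (H974.RE 0 w 0 h) ω) ∩ ↑(H974.RE 0 w 0 h) : Set H974.Edg) =
          ↑(H974.FF (H974.RE 0 w 0 h) ω) := by
        have h3 := H974.FF_coe (H974.RE 0 w 0 h) ω
        refine Set.inter_eq_left.mpr fun e he => ?_
        exact ((Set.ext_iff.mp h3 e).mp he).2
      rw [e1]
      exact propext (openGraph_adj w h ω u v)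
    rw [e]
    rfl
  constructor
  · rintro ⟨s, hs, t, ht, hr⟩
    exact ⟨s, hs, t, ht, (key _ _).mp hr⟩
  · rintro ⟨s, hs, t, ht, hr⟩
    exact ⟨s, hs, t, ht, (key _ _).mpr hr⟩

open H974 in
theorem full_eq {w h : ℤ} (hw : 0 < w) : H974.Pr Pool.Agent.H160R2.CV.P (H974.RE 0 w 0 h)
    (Pool.Agent.TH966.CC.Cr w h (Finset.Icc 0 h) (Finset.Icc 0 h)) = hh (1/2) w h := by
  have sL : LRE 0 w 0 h ⊆ RE 0 w 0 h := LRE_subset_RE
  have b3 : Pr Pool.Agent.H160R2.CV.P (RE 0 w 0 h) (LRc 0 w 0 h) = hh (1/2) w h := by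
    have := pr_LRc (1/2) sL
    rw [sub_zero, sub_zero] at this
    exact this
  rw [← b3]
  apply Pr_congr
  intro F _
  constructor
  · rintro ⟨s, hs, t, ht, hr⟩
    exact LRc_of_reach hw hr rfl rfl
  · rintro ⟨y, y', h1, h2, h3⟩
    exact ⟨y, Finset.mem_Icc.mpr h1, y', Finset.mem_Icc.mpr h2,
      h3.mono (Set.inter_subset_inter_right _ (by exact_mod_cast sL))⟩

/-- **Crossing probabilities between arbitrary subsets of opposite sides.** -/
theorem result : ∀ κ : ℕ, 1 ≤ κ → ∃ c C : ℝ, 0 < c ∧ 0 < C ∧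
    ∀ w h : ℤ, 1 ≤ w → 1 ≤ h → h ≤ κ * w → ∀ S T : Finset ℤ, Middle κ h S → Middle κ h T →
      c * (cross w h (Icc 0 h) (Icc 0 h) * capacity h S * capacity h T) ≤ cross w h S T ∧
      cross w h S T ≤ C * (cross w h (Icc 0 h) (Icc 0 h) * capacity h S * capacity h T) := by
  intro κ hκ
  obtain ⟨c, hc, h1⟩ := Pool.Agent.TH966.CC.cr_low κ hκ
  obtain ⟨C, hC, h2⟩ := Pool.Agent.TH966.CC.cr_up κ hκ
  refine ⟨c, C, hc, hC, fun w h hw hh hwh S T hS hT => ?_⟩
  rw [capacity_eq (by omega) S, capacity_eq (by omega) T, cross_eq, cross_eq,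
    full_eq (by omega)]
  exact ⟨h1 w h hw hh hwh S T (fun x hx => by exact_mod_cast hS x hx)
      (fun x hx => by exact_mod_cast hT x hx),
    h2 w h hw hh hwh S T (fun x hx => by exact_mod_cast hS x hx)
      (fun x hx => by exact_mod_cast hT x hx)⟩

end Pool.Agent.Results.MP_b3e76a_pr.RectangleCapacities
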